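import Mathlib
import Pool.Agent.H91.PK.Defs

/-!
# Project EHA: definitions

Elliott-Halberstam on average over short intervals of residue classes.
-/

set_option autoImplicit false

namespace Pool.Agent.H91.EHA

open Finset
open Pool.Agent.H91.PK

/-- The von Mangoldt function, as a real function on `ℕ`. -/
noncomputable def Lam (n : ℕ) : ℝ := ArithmeticFunction.vonMangoldt n

/-- `psi(y; q, a)`: the sum of `Lam n` over `1 ≤ n ≤ y`, `n ≡ a mod q`. -/
noncomputable def psiA (y q a : ℕ) : ℝ :=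
  ∑ n ∈ (Icc 1 y).filter (fun n => n ≡ a [MOD q]), Lam n

/-- The Ramanujan sum `c_c(n) = ∑_{d | (c, n)} d μ(c/d)` (for `n ≥ 1`). -/
noncomputable def ramS (c n : ℕ) : ℝ :=
  ∑ d ∈ (Nat.gcd c n).divisors, (d : ℝ) * (ArithmeticFunction.moebius (c / d) : ℝ)

/-- The truncated Ramanujan expansion of the von Mangoldt function:
`lamR R n = ∑_{c ≤ R} μ(c)/φ(c) c_c(n)`. -/
noncomputable def lamR (R n : ℕ) : ℝ :=
  ∑ c ∈ Icc 1 R, (ArithmeticFunction.moebius c : ℝ) / (c.totient : ℝ) * ramS c n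

/-- The function whose second moments are estimated. -/
noncomputable def hR (R n : ℕ) : ℝ := Lam n - lamR R n

/-- The Dirichlet series of `χ(n) (log n)^k`. -/
noncomputable def Lk (q : ℕ) (χ : DirichletCharacter ℂ q) (k : ℕ) (s : ℂ) : ℂ :=
  LSeries (fun n => ((Real.log n : ℝ) : ℂ) ^ k * χ (n : ZMod q)) s

/-- The Dirichlet series of `Λ(n) χ(n) (log n)^k`. -/
noncomputable def Fk (q : ℕ) (χ : DirichletCharacter ℂ q) (k : ℕ) (s : ℂ) : ℂ :=
  LSeries (fun n => ((Lam n * Real.log n ^ k : ℝ) : ℂ) * χ (n : ZMod q)) s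

/-- The smoothed error term in the progression `a mod q` (weight `om(n/N)`,
`om(t) = t (1-t)^2` on `[0,1]`, `0` outside). -/
noncomputable def Eom (N q a : ℕ) : ℝ :=
  (∑ n ∈ (Icc 1 N).filter (fun n => n ≡ a [MOD q]), Lam n * om ((n : ℝ) / N))
    - (1 / (q.totient : ℝ)) * ∑ n ∈ (Icc 1 N).filter (fun n => Nat.Coprime n q),
        Lam n * om ((n : ℝ) / N)

/-- Primes up to `x` in the class `a mod q`, minus the expected number. -/
noncomputable def err (x q : ℕ) (a : ZMod q) : ℝ :=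
  (((Finset.Icc 1 x).filter (fun p : ℕ => Nat.Prime p ∧ ((p : ZMod q) = a))).card : ℝ)
    - (Nat.primeCounting x : ℝ) / (Nat.totient q : ℝ)

end Pool.Agent.H91.EHA
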