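import Mathlib
import Pool.Agent.H91.EHA.Defs

/-!
# Bounds for `L(s,χ)` in `Re s ≥ 1/2` (for Siegel's theorem)

`LF_le`: for `Re s > 1`, `L(s,χ) = s ∫_1^∞ S(u) u^{-s-1} du`, `S(u) = ∑_{n≤u} χ(n)`, `‖S(u)‖ ≤ q`
(Mathlib: `LSeries_eq_mul_integral`, file `SumCoeff.lean`).  The right side is analytic for `Re s > 0`
and equals `LFunction χ` (entire for `χ ≠ 1`, `DirichletCharacter.differentiable_LFunction`)
by the identity theorem on the half plane.  So `‖L(s,χ)‖ ≤ ‖s‖ q / Re s ≤ 2 q ‖s‖`.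
`LF1_le`: `A(u) = #{n ≤ u, (n,q)=1} = (φ(q)/q) u + E(u)`, `|E(u)| ≤ q`:
`(s-1) L(s,χ0) = (φ(q)/q) s + (s-1) s ∫ E(u) u^{-s-1} du`.
-/

set_option autoImplicit false

namespace Pool.Agent.H91.EHA

open Finset
open Pool.Agent.H91.PK

/-! ### partial sums of periodic functions -/

private lemma swd1_period (q : ℕ) (f : ℕ → ℂ) (hf : ∀ k, f (k + q) = f k) (N : ℕ) :
    ∑ k ∈ range (N + q), f k = ∑ k ∈ range N, f k + ∑ k ∈ range q, f k := by
  rw [add_comm N q, Finset.sum_range_add, add_comm]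
  congr 1
  exact Finset.sum_congr rfl fun k _ => by rw [add_comm q k, hf]

/-- mean value of a periodic function -/
private noncomputable def swd1_mean (q : ℕ) (f : ℕ → ℂ) : ℂ := (∑ k ∈ range q, f k) / q

private lemma swd1_mean_le (q : ℕ) (hq : 0 < q) (f : ℕ → ℂ) (h1 : ∀ k, ‖f k‖ ≤ 1) :
    ‖swd1_mean q f‖ ≤ 1 := by
  unfold swd1_mean
  rw [norm_div, Complex.norm_natCast]
  rw [div_le_one (by exact_mod_cast hq)]
  calc ‖∑ k ∈ range q, f k‖ ≤ ∑ k ∈ range q, ‖f k‖ := norm_sum_le _ _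
    _ ≤ ∑ k ∈ range q, (1 : ℝ) := Finset.sum_le_sum fun k _ => h1 k
    _ = q := by simp

private lemma swd1_dev (q : ℕ) (hq : 0 < q) (f : ℕ → ℂ) (hf : ∀ k, f (k + q) = f k)
    (h1 : ∀ k, ‖f k‖ ≤ 1) (N : ℕ) :
    ‖∑ k ∈ range N, f k - swd1_mean q f * N‖ ≤ 2 * q := by
  induction N using Nat.strong_induction_on with
  | _ N ih =>
    by_cases hN : N < q
    · have hm := swd1_mean_le q hq f h1
      have hNq : (N : ℝ) ≤ q := by exact_mod_cast hN.le
      calc ‖∑ k ∈ range N, f k - swd1_mean q f * N‖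
          ≤ ‖∑ k ∈ range N, f k‖ + ‖swd1_mean q f * N‖ := norm_sub_le _ _
        _ ≤ (N : ℝ) + 1 * N := by
            refine add_le_add ?_ ?_
            · calc ‖∑ k ∈ range N, f k‖ ≤ ∑ k ∈ range N, ‖f k‖ := norm_sum_le _ _
                _ ≤ ∑ k ∈ range N, (1 : ℝ) := Finset.sum_le_sum fun k _ => h1 k
                _ = N := by simp
            · rw [norm_mul, Complex.norm_natCast]
              exact mul_le_mul_of_nonneg_right hm (Nat.cast_nonneg _)
        _ ≤ 2 * q := by linarith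
    · push Not at hN
      obtain ⟨M, rfl⟩ := Nat.exists_eq_add_of_le hN
      have hM : M < q + M := by omega
      have h := ih M hM
      have e : ∑ k ∈ range (q + M), f k - swd1_mean q f * ((q + M : ℕ) : ℂ)
          = ∑ k ∈ range M, f k - swd1_mean q f * M := by
        rw [add_comm q M, swd1_period q f hf M]
        have hq' : (q : ℂ) ≠ 0 := by exact_mod_cast hq.ne'
        unfold swd1_mean
        push_cast
        field_simp
        ring
      rw [e]
      exact h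

/-- the error term -/
private noncomputable def swd1_E (q : ℕ) (f : ℕ → ℂ) (t : ℝ) : ℂ :=
  ∑ k ∈ Icc 1 ⌊t⌋₊, f k - swd1_mean q f * t

private lemma swd1_E_le (q : ℕ) (hq : 0 < q) (f : ℕ → ℂ) (hf : ∀ k, f (k + q) = f k)
    (h1 : ∀ k, ‖f k‖ ≤ 1) (t : ℝ) (ht : 0 ≤ t) : ‖swd1_E q f t‖ ≤ 4 * q := by
  have hq1 : (1 : ℝ) ≤ q := by exact_mod_cast hq
  have e0 : ∑ k ∈ Icc 1 ⌊t⌋₊, f k = ∑ k ∈ range (⌊t⌋₊ + 1), f k - f 0 := by
    rw [Finset.sum_range_succ', Finset.range_eq_Ico, Finset.sum_Ico_add' f 0 ⌊t⌋₊ 1]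
    simp only [zero_add, add_sub_cancel_right]
    rfl
  have hm := swd1_mean_le q hq f h1
  have e : swd1_E q f t = (∑ k ∈ range (⌊t⌋₊ + 1), f k - swd1_mean q f * ((⌊t⌋₊ + 1 : ℕ) : ℂ))
      - f 0 + swd1_mean q f * (((⌊t⌋₊ + 1 : ℝ) - t : ℝ) : ℂ) := by
    unfold swd1_E
    rw [e0]
    push_cast
    ring
  rw [e]
  have hfl1 := Nat.floor_le ht
  have hfl2 := Nat.lt_floor_add_one t
  have h3 : ‖(((⌊t⌋₊ + 1 : ℝ) - t : ℝ) : ℂ)‖ ≤ 1 := by
    rw [Complex.norm_real, Real.norm_eq_abs, abs_le]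
    constructor <;> linarith
  calc ‖(∑ k ∈ range (⌊t⌋₊ + 1), f k - swd1_mean q f * ((⌊t⌋₊ + 1 : ℕ) : ℂ))
      - f 0 + swd1_mean q f * (((⌊t⌋₊ + 1 : ℝ) - t : ℝ) : ℂ)‖
      ≤ ‖(∑ k ∈ range (⌊t⌋₊ + 1), f k - swd1_mean q f * ((⌊t⌋₊ + 1 : ℕ) : ℂ))
      - f 0‖ + ‖swd1_mean q f * (((⌊t⌋₊ + 1 : ℝ) - t : ℝ) : ℂ)‖ := norm_add_le _ _
    _ ≤ (2 * q + 1) + 1 * 1 := by
        refine add_le_add ((norm_sub_le _ _).trans
          (add_le_add (swd1_dev q hq f hf h1 _) (h1 0))) ?_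
        rw [norm_mul]
        exact mul_le_mul hm h3 (norm_nonneg _) zero_le_one
    _ ≤ 4 * q := by linarith

private lemma swd1_E_meas (q : ℕ) (f : ℕ → ℂ) : Measurable (swd1_E q f) := by
  unfold swd1_E
  refine Measurable.sub ?_ ?_
  · have h : Measurable (fun n : ℕ => ∑ k ∈ Icc 1 n, f k) := measurable_from_top
    exact h.comp Nat.measurable_floor
  · exact measurable_const.mul Complex.measurable_ofReal

/-! ### the integral -/

private noncomputable def swd1_G (E : ℝ → ℂ) (s : ℂ) : ℂ :=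
  ∫ t in Set.Ioi (1 : ℝ), E t * (t : ℂ) ^ (-(s + 1))

private lemma swd1_int (E : ℝ → ℂ) (hE : Measurable E) (K : ℝ)
    (hK : ∀ t, 1 ≤ t → ‖E t‖ ≤ K) (s : ℂ) (hs : 0 < s.re) :
    MeasureTheory.IntegrableOn (fun t : ℝ => E t * (t : ℂ) ^ (-(s + 1))) (Set.Ioi 1) ∧
    ‖swd1_G E s‖ ≤ K / s.re := by
  have hr : -(s.re + 1) < -1 := by linarith
  have hi := integrableOn_Ioi_rpow_of_lt hr one_pos
  have hb : ∀ t ∈ Set.Ioi (1 : ℝ), ‖E t * (t : ℂ) ^ (-(s + 1))‖ ≤ K * t ^ (-(s.re + 1)) := by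
    intro t ht
    have ht1 : (1 : ℝ) < t := ht
    have ht0 : 0 < t := by linarith
    rw [norm_mul, Complex.norm_cpow_eq_rpow_re_of_pos ht0]
    have : (-(s + 1)).re = -(s.re + 1) := by simp
    rw [this]
    exact mul_le_mul_of_nonneg_right (hK t ht1.le) (Real.rpow_nonneg ht0.le _)
  have hmeas : Measurable (fun t : ℝ => E t * (t : ℂ) ^ (-(s + 1))) := by
    refine hE.mul ?_
    exact Complex.measurable_ofReal.pow_const _
  refine ⟨?_, ?_⟩
  · refine MeasureTheory.Integrable.mono' (hi.const_mul K) hmeas.aestronglyMeasurable ?_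
    exact (MeasureTheory.ae_restrict_iff' measurableSet_Ioi).mpr
      (Filter.Eventually.of_forall fun t ht => hb t ht)
  · unfold swd1_G
    have h1 : ‖∫ t in Set.Ioi (1 : ℝ), E t * (t : ℂ) ^ (-(s + 1))‖
        ≤ ∫ t in Set.Ioi (1 : ℝ), K * t ^ (-(s.re + 1)) := by
      refine MeasureTheory.norm_integral_le_of_norm_le (hi.const_mul K) ?_
      exact (MeasureTheory.ae_restrict_iff' measurableSet_Ioi).mpr
        (Filter.Eventually.of_forall fun t ht => hb t ht)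
    refine h1.trans (le_of_eq ?_)
    rw [MeasureTheory.integral_const_mul, integral_Ioi_rpow_of_lt hr one_pos]
    rw [Real.one_rpow]
    have : -(s.re + 1) + 1 = - s.re := by ring
    rw [this]
    field_simp

private lemma swd1_G_diff (E : ℝ → ℂ) (hE : Measurable E) (K : ℝ)
    (hK : ∀ t, 1 ≤ t → ‖E t‖ ≤ K) (s : ℂ) (hs : 0 < s.re) :
    DifferentiableAt ℂ (swd1_G E) s := by
  have hK0 : 0 ≤ K := (norm_nonneg _).trans (hK 1 le_rfl)
  set F : ℝ → ℂ := (Set.Ioi (1 : ℝ)).indicator E with hF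
  have hFm : Measurable F := hE.indicator measurableSet_Ioi
  have hFb : ∀ t, ‖F t‖ ≤ K := by
    intro t
    rw [hF]
    by_cases ht : t ∈ Set.Ioi (1 : ℝ)
    · rw [Set.indicator_of_mem ht]
      exact hK t (le_of_lt ht)
    · rw [Set.indicator_of_notMem ht, norm_zero]
      exact hK0
  have hG : ∀ z : ℂ, swd1_G E z = mellin F (-z) := by
    intro z
    unfold swd1_G mellin
    have h1 : Set.Ioi (1 : ℝ) ⊆ Set.Ioi 0 := Set.Ioi_subset_Ioi zero_le_one
    rw [← MeasureTheory.integral_indicator measurableSet_Ioi,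
      ← MeasureTheory.integral_indicator measurableSet_Ioi]
    refine MeasureTheory.integral_congr_ae (Filter.Eventually.of_forall fun t => ?_)
    by_cases ht : t ∈ Set.Ioi (1 : ℝ)
    · rw [Set.indicator_of_mem ht, Set.indicator_of_mem (h1 ht), hF, Set.indicator_of_mem ht,
        smul_eq_mul, mul_comm]
      congr 2
      ring
    · rw [Set.indicator_of_notMem ht]
      by_cases ht0 : t ∈ Set.Ioi (0 : ℝ)
      · rw [Set.indicator_of_mem ht0, hF, Set.indicator_of_notMem ht, smul_zero]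
      · rw [Set.indicator_of_notMem ht0]
  have hfun : swd1_G E = fun z => mellin F (-z) := funext hG
  rw [hfun]
  have hloc : MeasureTheory.LocallyIntegrableOn F (Set.Ioi 0) := by
    have h := (MeasureTheory.memLp_top_of_bound (μ := MeasureTheory.volume)
      hFm.aestronglyMeasurable K (Filter.Eventually.of_forall hFb)).locallyIntegrable le_top
    exact h.locallyIntegrableOn _
  have htop : F =O[Filter.atTop] (fun t : ℝ => t ^ (-(0 : ℝ))) := by
    refine Asymptotics.IsBigO.of_bound K (Filter.Eventually.of_forall fun t => ?_)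
    simp only [neg_zero, Real.rpow_zero, norm_one, mul_one]
    exact hFb t
  have hbot : F =O[nhdsWithin 0 (Set.Ioi 0)] (fun t : ℝ => t ^ (-(-(s.re + 1)))) := by
    have : F =ᶠ[nhdsWithin 0 (Set.Ioi 0)] (fun _ => (0 : ℂ)) := by
      have h1 : Set.Iio (1 : ℝ) ∈ nhdsWithin (0 : ℝ) (Set.Ioi 0) :=
        mem_nhdsWithin_of_mem_nhds (Iio_mem_nhds one_pos)
      filter_upwards [h1] with t ht
      rw [hF, Set.indicator_of_notMem]
      simp only [Set.mem_Ioi, not_lt]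
      exact le_of_lt ht
    exact this.trans_isBigO (Asymptotics.isBigO_zero _ _)
  have hd : DifferentiableAt ℂ (mellin F) (-s) := by
    refine mellin_differentiableAt_of_isBigO_rpow hloc htop ?_ hbot ?_
    · simp only [Complex.neg_re]; linarith
    · simp only [Complex.neg_re]; linarith
  exact hd.comp s differentiableAt_id.neg

/-! ### the L-function -/

private noncomputable def swd1_S (q : ℕ) (χ : DirichletCharacter ℂ q) : ℕ → ℂ :=
  fun n => χ (n : ZMod q)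

private lemma swd1_S_per (q : ℕ) (χ : DirichletCharacter ℂ q) (k : ℕ) :
    swd1_S q χ (k + q) = swd1_S q χ k := by
  unfold swd1_S
  push_cast
  rw [ZMod.natCast_self, add_zero]

private lemma swd1_S_norm (q : ℕ) (χ : DirichletCharacter ℂ q) (k : ℕ) :
    ‖swd1_S q χ k‖ ≤ 1 := by
  unfold swd1_S
  exact χ.norm_le_one _

private lemma swd1_rep (q : ℕ) [NeZero q] (χ : DirichletCharacter ℂ q) (s : ℂ) (hs : 1 < s.re) :
    DirichletCharacter.LFunction χ s
      = swd1_mean q (swd1_S q χ) * s / (s - 1) + s * swd1_G (swd1_E q (swd1_S q χ)) s := by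
  have hq : 0 < q := Nat.pos_of_ne_zero (NeZero.ne q)
  rw [DirichletCharacter.LFunction_eq_LSeries χ hs]
  have h0 : (0 : ℝ) < s.re := by linarith
  have hs1 : s - 1 ≠ 0 := by
    intro h
    have := congrArg Complex.re h
    simp at this
    linarith
  have hO : (fun n : ℕ => ∑ k ∈ Icc 1 n, swd1_S q χ k) =O[Filter.atTop]
      fun n : ℕ => (n : ℝ) ^ (1 : ℝ) := by
    refine Asymptotics.IsBigO.of_bound 1 (Filter.Eventually.of_forall fun n => ?_)
    rw [Real.rpow_one, one_mul, Real.norm_natCast]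
    calc ‖∑ k ∈ Icc 1 n, swd1_S q χ k‖ ≤ ∑ k ∈ Icc 1 n, ‖swd1_S q χ k‖ := norm_sum_le _ _
      _ ≤ ∑ k ∈ Icc 1 n, (1 : ℝ) := Finset.sum_le_sum fun k _ => swd1_S_norm q χ k
      _ = n := by simp
  have hsum := DirichletCharacter.LSeriesSummable_of_one_lt_re χ hs
  have h := LSeries_eq_mul_integral (swd1_S q χ) zero_le_one hs hsum hO
  have e1 : (fun n : ℕ => χ (n : ZMod q)) = swd1_S q χ := rfl
  rw [e1, h]
  obtain ⟨hi, -⟩ := swd1_int (swd1_E q (swd1_S q χ)) (swd1_E_meas q _) (4 * q)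
    (fun t ht => swd1_E_le q hq _ (swd1_S_per q χ) (swd1_S_norm q χ) t (by linarith)) s h0
  have hre : (-s).re < -1 := by simp only [Complex.neg_re]; linarith
  have hi2 : MeasureTheory.IntegrableOn (fun t : ℝ => swd1_mean q (swd1_S q χ) * (t : ℂ) ^ (-s))
      (Set.Ioi 1) := (integrableOn_Ioi_cpow_of_lt hre one_pos).const_mul _
  have hsplit : (∫ t in Set.Ioi (1 : ℝ), (∑ k ∈ Icc 1 ⌊t⌋₊, swd1_S q χ k) * (t : ℂ) ^ (-(s + 1)))
      = ∫ t in Set.Ioi (1 : ℝ), (swd1_mean q (swd1_S q χ) * (t : ℂ) ^ (-s)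
        + swd1_E q (swd1_S q χ) t * (t : ℂ) ^ (-(s + 1))) := by
    refine MeasureTheory.setIntegral_congr_fun measurableSet_Ioi fun t ht => ?_
    have ht1 : (1 : ℝ) < t := ht
    have ht0 : (t : ℂ) ≠ 0 := by
      exact_mod_cast (by linarith : t ≠ 0)
    have e2 : (t : ℂ) ^ (-s) = t * (t : ℂ) ^ (-(s + 1)) := by
      have : (-s : ℂ) = 1 + (-(s + 1)) := by ring
      rw [this, Complex.cpow_add _ _ ht0, Complex.cpow_one]
    rw [e2]
    unfold swd1_E
    ring
  rw [hsplit, MeasureTheory.integral_add hi2 hi, MeasureTheory.integral_const_mul,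
    integral_Ioi_cpow_of_lt hre one_pos]
  unfold swd1_G
  rw [Complex.ofReal_one, Complex.one_cpow]
  have e3 : (-s + 1 : ℂ) = -(s - 1) := by ring
  rw [e3]
  have hs1' : -(s - 1) ≠ 0 := neg_ne_zero.mpr hs1
  field_simp

private lemma swd1_halfplane : IsPreconnected {z : ℂ | 0 < z.re} :=
  (convex_halfSpace_re_gt 0).isPreconnected

private lemma swd1_open : IsOpen {z : ℂ | 0 < z.re} :=
  isOpen_lt continuous_const Complex.continuous_re

private lemma swd1_eqon (f g : ℂ → ℂ) (hf : ∀ s : ℂ, 0 < s.re → DifferentiableAt ℂ f s)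
    (hg : ∀ s : ℂ, 0 < s.re → DifferentiableAt ℂ g s) (h : ∀ s : ℂ, 1 < s.re → f s = g s)
    (s : ℂ) (hs : 0 < s.re) : f s = g s := by
  have hf' : AnalyticOnNhd ℂ f {z : ℂ | 0 < z.re} :=
    DifferentiableOn.analyticOnNhd (fun z hz => (hf z hz).differentiableWithinAt) swd1_open
  have hg' : AnalyticOnNhd ℂ g {z : ℂ | 0 < z.re} :=
    DifferentiableOn.analyticOnNhd (fun z hz => (hg z hz).differentiableWithinAt) swd1_open
  have h2 : (2 : ℂ) ∈ {z : ℂ | 0 < z.re} := by simp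
  refine hf'.eqOn_of_preconnected_of_eventuallyEq hg' swd1_halfplane h2 ?_ hs
  have : {z : ℂ | 1 < z.re} ∈ nhds (2 : ℂ) :=
    (isOpen_lt continuous_const Complex.continuous_re).mem_nhds (by simp)
  filter_upwards [this] with z hz
  exact h z hz

private lemma swd1_mean_zero (q : ℕ) [NeZero q] (χ : DirichletCharacter ℂ q) (hχ : χ ≠ 1) :
    swd1_mean q (swd1_S q χ) = 0 := by
  unfold swd1_mean swd1_S
  have h : ∑ k ∈ range q, χ ((k : ℕ) : ZMod q) = ∑ a : ZMod q, χ a := by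
    refine Finset.sum_bij' (fun k _ => ((k : ℕ) : ZMod q)) (fun a _ => a.val) ?_ ?_ ?_ ?_ ?_
    · intro k _; exact mem_univ _
    · intro a _; exact mem_range.mpr (ZMod.val_lt a)
    · intro k hk; exact ZMod.val_cast_of_lt (mem_range.mp hk)
    · intro a _; exact ZMod.natCast_zmod_val a
    · intro k _; rfl
  rw [h, MulChar.sum_eq_zero_of_ne_one hχ, zero_div]

theorem LF_le : ∃ C : ℝ, 1 ≤ C ∧ ∀ (q : ℕ) [NeZero q] (χ : DirichletCharacter ℂ q), χ ≠ 1 →
    ∀ s : ℂ, 1 / 2 ≤ s.re → ‖DirichletCharacter.LFunction χ s‖ ≤ C * q * ‖s‖ := by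
  refine ⟨8, by norm_num, ?_⟩
  intro q _ χ hχ s hs
  have hq : 0 < q := Nat.pos_of_ne_zero (NeZero.ne q)
  have hb : ∀ t : ℝ, 1 ≤ t → ‖swd1_E q (swd1_S q χ) t‖ ≤ 4 * q := fun t ht =>
    swd1_E_le q hq _ (swd1_S_per q χ) (swd1_S_norm q χ) t (by linarith)
  have hs0 : 0 < s.re := by linarith
  have h := swd1_eqon (DirichletCharacter.LFunction χ)
    (fun z => z * swd1_G (swd1_E q (swd1_S q χ)) z)
    (fun z _ => (DirichletCharacter.differentiable_LFunction hχ) z)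
    (fun z hz => differentiableAt_id.mul (swd1_G_diff _ (swd1_E_meas q _) (4 * q) hb z hz))
    (fun z hz => by
      rw [swd1_rep q χ z hz, swd1_mean_zero q χ hχ, zero_mul, zero_div, zero_add]) s hs0
  rw [h]
  simp only [norm_mul]
  have hG := (swd1_int _ (swd1_E_meas q (swd1_S q χ)) (4 * q) hb s hs0).2
  have h4 : (4 * q : ℝ) / s.re ≤ 8 * q := by
    rw [div_le_iff₀ hs0]
    have : (0 : ℝ) ≤ q := Nat.cast_nonneg q
    nlinarith
  calc ‖s‖ * ‖swd1_G (swd1_E q (swd1_S q χ)) s‖ ≤ ‖s‖ * (8 * q) :=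
        mul_le_mul_of_nonneg_left (hG.trans h4) (norm_nonneg _)
    _ = 8 * q * ‖s‖ := by ring

theorem LF1_le : ∃ C : ℝ, 1 ≤ C ∧ ∀ (q : ℕ) [NeZero q], ∀ s : ℂ, 1 / 2 ≤ s.re → s ≠ 1 →
    ‖(s - 1) * DirichletCharacter.LFunction (1 : DirichletCharacter ℂ q) s‖
      ≤ C * q * (1 + ‖s‖) ^ 2 := by
  refine ⟨9, by norm_num, ?_⟩
  intro q _ s hs hs1
  have hq : 0 < q := Nat.pos_of_ne_zero (NeZero.ne q)
  have hq1 : (1 : ℝ) ≤ q := by exact_mod_cast hq
  set f := swd1_S q (1 : DirichletCharacter ℂ q) with hf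
  have hb : ∀ t : ℝ, 1 ≤ t → ‖swd1_E q f t‖ ≤ 4 * q := fun t ht =>
    swd1_E_le q hq _ (swd1_S_per q _) (swd1_S_norm q _) t (by linarith)
  have hs0 : 0 < s.re := by linarith
  have h := swd1_eqon (DirichletCharacter.LFunctionTrivChar₁ q)
    (fun z => swd1_mean q f * z + (z - 1) * (z * swd1_G (swd1_E q f) z))
    (fun z _ => (DirichletCharacter.differentiable_LFunctionTrivChar₁ q) z)
    (fun z hz => (differentiableAt_id.const_mul _).add ((differentiableAt_id.sub_const 1).mul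
      (differentiableAt_id.mul (swd1_G_diff _ (swd1_E_meas q _) (4 * q) hb z hz))))
    (fun z hz => by
      have hz1 : z ≠ 1 := by
        rintro rfl
        simp at hz
      have hz1' : z - 1 ≠ 0 := sub_ne_zero.mpr hz1
      rw [DirichletCharacter.LFunctionTrivChar₁, Function.update_of_ne hz1]
      show (z - 1) * DirichletCharacter.LFunction (1 : DirichletCharacter ℂ q) z = _
      rw [swd1_rep q _ z hz]
      simp only [← hf]
      field_simp) s hs0
  rw [DirichletCharacter.LFunctionTrivChar₁, Function.update_of_ne hs1] at h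
  have h' : (s - 1) * DirichletCharacter.LFunction (1 : DirichletCharacter ℂ q) s
      = swd1_mean q f * s + (s - 1) * (s * swd1_G (swd1_E q f) s) := h
  rw [h']
  have hG := (swd1_int _ (swd1_E_meas q f) (4 * q) hb s hs0).2
  have h4 : (4 * q : ℝ) / s.re ≤ 8 * q := by
    rw [div_le_iff₀ hs0]
    nlinarith
  have hm := swd1_mean_le q hq f (swd1_S_norm q _)
  have hns := norm_nonneg s
  have hs1n : ‖s - 1‖ ≤ 1 + ‖s‖ := by
    calc ‖s - 1‖ ≤ ‖s‖ + ‖(1 : ℂ)‖ := norm_sub_le _ _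
      _ = 1 + ‖s‖ := by rw [norm_one, add_comm]
  have hA : ‖(s - 1) * (s * swd1_G (swd1_E q f) s)‖ ≤ (1 + ‖s‖) * (‖s‖ * (8 * q)) := by
    rw [norm_mul, norm_mul]
    exact mul_le_mul hs1n (mul_le_mul_of_nonneg_left (hG.trans h4) hns)
      (mul_nonneg hns (norm_nonneg _)) (by linarith)
  have hB : ‖swd1_mean q f * s‖ ≤ 1 * ‖s‖ := by
    rw [norm_mul]
    exact mul_le_mul_of_nonneg_right hm hns
  calc ‖swd1_mean q f * s + (s - 1) * (s * swd1_G (swd1_E q f) s)‖
      ≤ 1 * ‖s‖ + (1 + ‖s‖) * (‖s‖ * (8 * q)) := (norm_add_le _ _).trans (add_le_add hB hA)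
    _ ≤ 9 * q * (1 + ‖s‖) ^ 2 := by nlinarith [mul_nonneg hns hns, mul_nonneg (sub_nonneg.mpr hq1) hns]

end Pool.Agent.H91.EHA
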